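import Mathlib
import Pool.Agent.Work.MP_6f07cb_gt.Final

/-!
# An order-preserving braid all of whose Burau eigenvalues are negative

The braid is the pure 3-braid `(s 0 * (s 1)⁻¹) ^ 3`. It is order-preserving because it acts
trivially on the abelianization of the free group, and the characteristic polynomial of its reduced
Burau matrix is `x ^ 2 - τ * (τ ^ 2 - 3) * x + 1` with `τ = 1 - t - t⁻¹`, all of whose roots in the
field of Puiseux series are negative.
-/

open Pool.Agent.Work.MP_6f07cb_gt in
/-- The braid `(s 0 * (s 1)⁻¹) ^ 3` on three strands is order-preserving, and every eigenvalue of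
its reduced Burau matrix in the field of real Puiseux series is negative. -/
theorem Pool.Agent.Results.MP_6f07cb_gt.BorromeanBraid.result :
    ∃ β : PresentedGroup (braidRels 2),
      β = (PresentedGroup.of 0 * (PresentedGroup.of 1)⁻¹) ^ 3 ∧
      OrderPreserving β ∧
      ∀ lam : Puiseux, IsBurauEigenvalue β lam → Puiseux.IsNeg lam :=
  ⟨borromean, rfl, borromean_orderPreserving, borromean_neg⟩
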